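import Mathlib

namespace Pool.Agent.Results.MP_415bd8_co.Wires

/-- `c` is a proper edge colouring of `G` (only its values on edges of `G` matter). -/
def Proper {V : Type} (G : SimpleGraph V) (c : Sym2 V → ℕ) : Prop :=
  ∀ u v w, G.Adj u v → G.Adj u w → v ≠ w → c s(u, v) ≠ c s(u, w)

/-- The number of colours used on the edges of `G`. -/
noncomputable def numColours {V : Type} (G : SimpleGraph V) (c : Sym2 V → ℕ) : ℕ :=
  (c '' G.edgeSet).ncard

/-- The chromatic index. -/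
noncomputable def chromIndex {V : Type} (G : SimpleGraph V) : ℕ :=
  sInf {m | ∃ c, Proper G c ∧ numColours G c = m}

/-- `G` contains a rainbow copy of `H` under `c`. -/
def HasRainbow {U V : Type} (H : SimpleGraph U) (G : SimpleGraph V) (c : Sym2 V → ℕ) : Prop :=
  ∃ f : H →g G, Function.Injective f ∧ Set.InjOn (fun e => c (Sym2.map f e)) H.edgeSet

/-- The paw: a triangle `0,1,2` with a pendant edge `0,3`. -/
def paw : SimpleGraph (Fin 4) where
  Adj a b := a ≠ b ∧ (a = 0 ∨ b = 0 ∨ (a ≠ 3 ∧ b ≠ 3))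
  symm := ⟨by decide⟩
  loopless := ⟨by decide⟩

instance : DecidableRel paw.Adj := fun a b =>
  inferInstanceAs (Decidable (a ≠ b ∧ (a = 0 ∨ b = 0 ∨ (a ≠ 3 ∧ b ≠ 3))))

theorem paw_edges : paw.edgeSet = {s(0, 1), s(0, 2), s(1, 2), s(0, 3)} := by
  ext e
  induction e using Sym2.ind with
  | _ a b =>
    simp only [SimpleGraph.mem_edgeSet, Set.mem_insert_iff, Set.mem_singleton_iff]
    revert a b; decide

theorem rainbow_iff {V : Type} (G : SimpleGraph V) (c : Sym2 V → ℕ) (hc : Proper G c) :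
    HasRainbow paw G c ↔ ∃ x y z w, G.Adj x y ∧ G.Adj x z ∧ G.Adj y z ∧ G.Adj x w ∧ w ≠ y ∧
      w ≠ z ∧ c s(x, w) ≠ c s(y, z) := by
  constructor
  · rintro ⟨f, hf, hi⟩
    refine ⟨f 0, f 1, f 2, f 3, f.map_rel (by decide), f.map_rel (by decide),
      f.map_rel (by decide), f.map_rel (by decide), hf.ne (by decide), hf.ne (by decide),
      fun h => ?_⟩
    have := hi (show s(0, 3) ∈ paw.edgeSet by decide) (show s(1, 2) ∈ paw.edgeSet by decide) h
    revert this; decide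
  · rintro ⟨x, y, z, w, h1, h2, h3, h4, h5, h6, h7⟩
    have n1 := h1.ne
    have n2 := h2.ne
    have n3 := h3.ne
    have n4 := h4.ne
    refine ⟨⟨![x, y, z, w], ?_⟩, ?_, ?_⟩
    · intro a b h
      fin_cases a <;> fin_cases b <;> simp [paw] at h <;> simp [*, SimpleGraph.adj_comm]
    · intro a b h
      fin_cases a <;> fin_cases b <;> simp at h <;> simp_all
    · have a1 := hc x y z h1 h2 n3
      have a2 := hc x y w h1 h4 h5.symm
      have a3 := hc x z w h2 h4 h6.symm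
      have a4 := hc y x z h1.symm h3 n2
      have a5 := hc z x y h2.symm h3.symm n1
      rw [Sym2.eq_swap (a := y) (b := x)] at a4
      rw [Sym2.eq_swap (a := z) (b := x), Sym2.eq_swap (a := z) (b := y)] at a5
      rw [paw_edges]
      rintro _ (rfl | rfl | rfl | rfl) _ (rfl | rfl | rfl | rfl) h <;> simp at h <;>
        first | rfl | omega

abbrev W (m : ℕ) := Fin 3 ⊕ (Fin 3 × Fin m × Fin 4)

variable {m : ℕ}

def A : W m → W m → Prop
  | Sum.inl _, Sum.inl _ => False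
  | Sum.inl h, Sum.inr (i, _, a) => (h = i ∧ a = 0) ∨ (h = i + 1 ∧ a = 3)
  | Sum.inr (i, _, a), Sum.inl h => (h = i ∧ a = 0) ∨ (h = i + 1 ∧ a = 3)
  | Sum.inr (i, t, a), Sum.inr (j, s, b) => i = j ∧ t = s ∧ a ≠ b ∧ a.val + b.val ≠ 3 ∨
      i = j ∧ t = s ∧ a.val * b.val = 2

def G (m : ℕ) : SimpleGraph (W m) where
  Adj := A
  symm := ⟨by
    rintro (h | ⟨i, t, a⟩) (h' | ⟨j, s, b⟩) hh <;> simp only [A] at hh ⊢ <;> grind⟩
  loopless := ⟨by
    rintro (h | ⟨i, t, a⟩) hh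
    · exact hh
    · simp only [A] at hh
      fin_cases a <;> simp at hh⟩

def lift (f : Fin 3 → Fin m → ℕ → ℕ) : W m → W m → ℕ
  | Sum.inl _, Sum.inl _ => 0
  | Sum.inl _, Sum.inr (i, t, a) => f i t (a.val + 10)
  | Sum.inr (i, t, a), Sum.inl _ => f i t (a.val + 10)
  | Sum.inr (i, t, a), Sum.inr (j, s, b) => if i = j ∧ t = s then f i t (a.val ^^^ b.val) else 0

theorem lift_symm (f : Fin 3 → Fin m → ℕ → ℕ) (u v : W m) : lift f u v = lift f v u := by
  rcases u with h | ⟨i, t, a⟩ <;> rcases v with h' | ⟨j, s, b⟩ <;> simp only [lift]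
  by_cases e : i = j ∧ t = s
  · obtain ⟨rfl, rfl⟩ := e
    simp [Nat.xor_comm]
  · rw [if_neg e, if_neg (fun h => e ⟨h.1.symm, h.2.symm⟩)]

def col (f : Fin 3 → Fin m → ℕ → ℕ) : Sym2 (W m) → ℕ := Sym2.lift ⟨lift f, lift_symm f⟩

def f1 (_ : Fin 3) (t : Fin m) (x : ℕ) : ℕ :=
  if x = 10 then 3 + t else if x = 13 then 3 + m + t else x % 3

def f2 (i : Fin 3) (t : Fin m) (x : ℕ) : ℕ :=
  if x = 1 then 0 else if x = 2 then 1 else 2 + i + 3 * t

theorem proper1 : Proper (G m) (col f1) := by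
  rintro (h | ⟨i, t, a⟩) (h' | ⟨j, s, b⟩) (h'' | ⟨k, r, d⟩) h1 h2 h3 <;>
    simp only [G, A, col, Sym2.lift_mk, lift] at h1 h2 h3 ⊢
  · have := s.2
    have := r.2
    have : ∀ i j : Fin 3, i + 1 = j + 1 → i = j := by decide
    rcases h1 with ⟨rfl, rfl⟩ | ⟨rfl, rfl⟩ <;> rcases h2 with ⟨h2, rfl⟩ | ⟨h2, rfl⟩ <;>
      simp [f1] at h3 ⊢ <;> grind
  · grind
  · rcases h2 with ⟨rfl, rfl, h2⟩ | ⟨rfl, rfl, h2⟩ <;> rcases h1 with ⟨rfl, rfl⟩ | ⟨rfl, rfl⟩ <;>
      fin_cases d <;> simp [f1] at h2 ⊢ <;> omega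
  · rcases h1 with ⟨rfl, rfl, h1⟩ | ⟨rfl, rfl, h1⟩ <;> rcases h2 with ⟨rfl, rfl⟩ | ⟨rfl, rfl⟩ <;>
      fin_cases b <;> simp [f1] at h1 ⊢ <;> omega
  · rcases h1 with ⟨rfl, rfl, h1⟩ | ⟨rfl, rfl, h1⟩ <;>
      rcases h2 with ⟨rfl, rfl, h2⟩ | ⟨rfl, rfl, h2⟩ <;>
      fin_cases a <;> fin_cases b <;> fin_cases d <;> simp [f1] at h1 h2 h3 ⊢

theorem proper2 : Proper (G m) (col f2) := by
  rintro (h | ⟨i, t, a⟩) (h' | ⟨j, s, b⟩) (h'' | ⟨k, r, d⟩) h1 h2 h3 <;>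
    simp only [G, A, col, Sym2.lift_mk, lift] at h1 h2 h3 ⊢
  · have : ∀ i : Fin 3, i ≠ i + 1 := by decide
    rcases h1 with ⟨rfl, rfl⟩ | ⟨rfl, rfl⟩ <;> rcases h2 with ⟨h2, rfl⟩ | ⟨h2, rfl⟩ <;>
      simp [f2] at h3 ⊢ <;> grind
  · grind
  · rcases h2 with ⟨rfl, rfl, h2⟩ | ⟨rfl, rfl, h2⟩ <;> rcases h1 with ⟨rfl, rfl⟩ | ⟨rfl, rfl⟩ <;>
      fin_cases d <;> simp [f2] at h2 ⊢ <;> omega
  · rcases h1 with ⟨rfl, rfl, h1⟩ | ⟨rfl, rfl, h1⟩ <;> rcases h2 with ⟨rfl, rfl⟩ | ⟨rfl, rfl⟩ <;>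
      fin_cases b <;> simp [f2] at h1 ⊢ <;> omega
  · rcases h1 with ⟨rfl, rfl, h1⟩ | ⟨rfl, rfl, h1⟩ <;>
      rcases h2 with ⟨rfl, rfl, h2⟩ | ⟨rfl, rfl, h2⟩ <;>
      fin_cases a <;> fin_cases b <;> fin_cases d <;> simp [f2] at h1 h2 h3 ⊢ <;> omega

theorem tri {x y z : W m} (h1 : A x y) (h2 : A x z) (h3 : A y z) :
    ∃ i t a b d, x = Sum.inr (i, t, a) ∧ y = Sum.inr (i, t, b) ∧ z = Sum.inr (i, t, d) := by
  have : ∀ i : Fin 3, i ≠ i + 1 := by decide
  rcases x with x | ⟨i, t, a⟩ <;> rcases y with y | ⟨j, s, b⟩ <;>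
    rcases z with z | ⟨k, r, d⟩ <;> simp only [A] at h1 h2 h3
  · exfalso; grind
  · exfalso; grind
  · exfalso; grind
  · obtain ⟨rfl, rfl⟩ : i = j ∧ t = s := by tauto
    obtain ⟨rfl, rfl⟩ : i = k ∧ t = r := by tauto
    exact ⟨_, _, _, _, _, rfl, rfl, rfl⟩

theorem no_rainbow : ¬ HasRainbow paw (G m) (col f2) := by
  rw [rainbow_iff _ _ proper2]
  rintro ⟨x, y, z, w, h1, h2, h3, h4, h5, h6, h7⟩
  obtain ⟨i, t, a, b, d, rfl, rfl, rfl⟩ := tri h1 h2 h3
  rcases w with w | ⟨l, q, e⟩ <;> simp only [G, A, col, Sym2.lift_mk, lift] at h1 h2 h3 h4 h7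
  · fin_cases a <;> fin_cases b <;> fin_cases d <;> simp [f2] at h1 h2 h3 h4 h7
  · obtain ⟨rfl, rfl⟩ : i = l ∧ t = q := by tauto
    fin_cases a <;> fin_cases b <;> fin_cases d <;> fin_cases e <;>
      simp [f2] at h1 h2 h3 h4 h5 h6 h7

theorem many (c : Sym2 (W m) → ℕ) (hc : Proper (G m) c) (h : ¬ HasRainbow paw (G m) c) :
    3 * m ≤ numColours (G m) c := by
  rw [rainbow_iff _ _ hc] at h
  push Not at h
  have e0 : ∀ i t, c s(Sum.inl i, Sum.inr (i, t, 0)) =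
      c s(Sum.inr (i, t, 1), Sum.inr (i, t, 2)) := by
    intro i t
    rw [Sym2.eq_swap]
    exact h _ _ _ _ (by simp [G, A]) (by simp [G, A]) (by simp [G, A]) (by simp [G, A])
      (by simp) (by simp)
  have e3 : ∀ i t, c s(Sum.inl (i + 1), Sum.inr (i, t, 3)) =
      c s(Sum.inr (i, t, 1), Sum.inr (i, t, 2)) := by
    intro i t
    rw [Sym2.eq_swap]
    exact h _ _ _ _ (by simp [G, A]) (by simp [G, A]) (by simp [G, A]) (by simp [G, A])
      (by simp) (by simp)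
  have e4 : ∀ i t s, c s(Sum.inr (i + 1, t, 1), Sum.inr (i + 1, t, 2)) ≠
      c s(Sum.inr (i, s, 1), Sum.inr (i, s, 2)) := by
    intro i t s
    rw [← e0, ← e3]
    exact hc _ _ _ (by simp [G, A]) (by simp [G, A]) (by simp)
  let g : Fin 3 × Fin m → ℕ := fun p => c s(Sum.inr (p.1, p.2, 1), Sum.inr (p.1, p.2, 2))
  have hg : Function.Injective g := by
    rintro ⟨i, t⟩ ⟨j, s⟩ hh
    have : ∀ i j : Fin 3, i = j ∨ i = j + 1 ∨ j = i + 1 := by decide
    rcases this i j with rfl | rfl | rfl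
    · by_contra hne
      simp only [g, ← e0] at hh
      exact hc _ _ _ (by simp [G, A]) (by simp [G, A]) (by simpa using hne) hh
    · exact absurd hh (e4 _ _ _)
    · exact absurd hh.symm (e4 _ _ _)
  have h1 : Set.range g ⊆ c '' (G m).edgeSet := by
    rintro _ ⟨p, rfl⟩
    exact ⟨_, by simp [G, A], rfl⟩
  have h2 := Set.ncard_le_ncard h1 (Set.toFinite _)
  rw [Set.ncard_range_of_injective hg] at h2
  simpa [numColours] using h2

theorem few : chromIndex (G m) ≤ 2 * m + 3 := by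
  refine le_trans (Nat.sInf_le ⟨col f1, proper1, rfl⟩) ?_
  have h1 : col (m := m) f1 '' (G m).edgeSet ⊆ ↑(Finset.range (2 * m + 3)) := by
    rintro _ ⟨e, _, rfl⟩
    have : ∀ i (t : Fin m) x, f1 i t x < 2 * m + 3 := by
      intro i t x
      have := t.2
      unfold f1; split_ifs <;> omega
    induction e using Sym2.ind with
    | _ u v =>
      rcases u with h | ⟨i, t, a⟩ <;> rcases v with h' | ⟨j, s, b⟩ <;>
        simp only [col, Sym2.lift_mk, lift, Finset.coe_range, Set.mem_Iio]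
      · omega
      · exact this _ _ _
      · exact this _ _ _
      · split_ifs
        · exact this _ _ _
        · omega
  have h2 := Set.ncard_le_ncard h1 (Set.toFinite _)
  simpa [numColours] using h2

theorem result (k : ℕ) : ∃ (U V : Type) (_ : Fintype U) (_ : Fintype V) (H : SimpleGraph U)
    (G : SimpleGraph V),
    (∀ c, Proper G c → numColours G c ≤ chromIndex G + k → HasRainbow H G c) ∧
      ∃ c, Proper G c ∧ ¬ HasRainbow H G c := by
  refine ⟨_, _, inferInstance, inferInstance, paw, G (k + 4), fun c hc h => ?_,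
    col f2, proper2, no_rainbow⟩
  by_contra hn
  have := many c hc hn
  have := few (m := k + 4)
  omega

end Pool.Agent.Results.MP_415bd8_co.Wires
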